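import Mathlib
import Pool.Agent.Lib.MP_50f558_pr.Main2
import Pool.Agent.Lib.MP_50f558_pr.Expander3

/-!
# The uniform mixing time is not a quasi-isometry invariant, even for vertex-transitive graphs

This file answers Q1 of MP_50f558_pr in the negative: there are constants `a, b, d, D` such that
for every `M` there are a finite connected vertex-transitive `d`-regular graph `G` and a finite
connected graph `G'` of maximum degree at most `D`, which is `(a, b)`-quasi-isometric to `G`, with
`tInf G' ≥ M * tInf G > 0`.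
-/

set_option autoImplicit false

namespace Pool.Agent.Results.MP_50f558_pr.UniformMixingNotQI

open scoped Classical in
/-- The degree of the vertex `x` of the finite graph `G`. -/
noncomputable def deg {V : Type} [Fintype V] (G : SimpleGraph V) (x : V) : ℕ := G.degree x

open scoped Classical in
/-- Transition matrix of the lazy simple random walk on a finite simple graph:
`P(x,x) = 1/2` and `P(x,y) = 1 / (2 deg x)` for `y ~ x`. -/
noncomputable def lazyP {V : Type} [Fintype V] (G : SimpleGraph V) : Matrix V V ℝ :=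
  fun x y => (if x = y then 1 / 2 else 0) + (if G.Adj x y then 1 / (2 * (G.degree x : ℝ)) else 0)

open scoped Classical in
/-- Stationary law `deg x / (2 |E|)` of the lazy simple random walk. -/
noncomputable def statPi {V : Type} [Fintype V] (G : SimpleGraph V) (x : V) : ℝ :=
  (G.degree x : ℝ) / (2 * (G.edgeFinset.card : ℝ))

open scoped Classical in
/-- The uniform mixing time: least `t` with `|P^t(x,y)/π(y) - 1| ≤ 1/4` for all `x, y`. -/
noncomputable def tInf {V : Type} [Fintype V] (G : SimpleGraph V) : ℕ :=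
  sInf {t : ℕ | ∀ x y : V, |(lazyP G ^ t) x y / statPi G y - 1| ≤ 1 / 4}

/-- A graph is vertex-transitive. -/
def VertexTransitive {V : Type} (G : SimpleGraph V) : Prop :=
  ∀ x y : V, ∃ φ : G ≃g G, φ x = y

/-- `G'` is `(a,b)`-quasi-isometric to `G`: there is `f : V → V'` with
`d(x,y)/a - b ≤ d'(f x, f y) ≤ a d(x,y) + b` and every vertex of `G'` is within distance `b` of
the image of `f`. -/
def QuasiIso (a b : ℝ) {V V' : Type} (G : SimpleGraph V) (G' : SimpleGraph V') : Prop :=
  ∃ f : V → V', (∀ x y : V, a⁻¹ * (G.dist x y : ℝ) - b ≤ (G'.dist (f x) (f y) : ℝ) ∧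
    (G'.dist (f x) (f y) : ℝ) ≤ a * (G.dist x y : ℝ) + b) ∧
    ∀ z : V', ∃ x : V, (G'.dist z (f x) : ℝ) ≤ b

/-- The uniform mixing time of bounded-degree graphs is not robust under quasi-isometries, even
when one of the graphs is vertex-transitive. -/
theorem result : ∃ (a b : ℝ) (d D : ℕ), 1 ≤ a ∧ 0 ≤ b ∧ ∀ M : ℕ,
    ∃ (V V' : Type) (_ : Fintype V) (_ : Fintype V') (G : SimpleGraph V) (G' : SimpleGraph V'),
      G.Connected ∧ G'.Connected ∧ VertexTransitive G ∧ (∀ x, deg G x = d) ∧
      (∀ x, deg G' x ≤ D) ∧ QuasiIso a b G G' ∧ M ≤ Fintype.card V ∧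
      0 < tInf G ∧ M * tInf G ≤ tInf G' := by
  obtain ⟨k, γ, hk, hγ, hγ1, hfam⟩ := Pool.Agent.MP50f558.exists_expanders
  obtain ⟨a, d, D, ha, h⟩ := Pool.Agent.MP50f558.main_aux k γ hk hγ hγ1 hfam
  refine ⟨a, 0, d, D, by exact_mod_cast ha, le_rfl, fun M => ?_⟩
  obtain ⟨V, hV, G, G', h1, h2, h3, h4, h5, h6, h7, h8, h9⟩ := h M
  exact ⟨V, V, hV, hV, G, G', h1, h2, h3, h4, h5, h6, h7, h8, h9⟩

end Pool.Agent.Results.MP_50f558_pr.UniformMixingNotQI
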